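import Pool.Agent.H1.LP.Targets

/-!
# Module DEC: greedy decomposition into dense pieces
-/

namespace Pool.Agent.H2.LP

open Finset Pool.Agent.H1.LP

variable {B : ℕ} {Q : Type} [Fintype Q] [DecidableEq Q]

theorem card_agree (I : Finset (Fin B)) (w : Fin B → Q) :
    (univ.filter (fun x : Fin B → Q => Agree I x w)).card * Fintype.card Q ^ I.card =
      Fintype.card Q ^ B := by
  have h1 : (univ.filter (fun x : Fin B → Q => Agree I x w)) =
      Fintype.piFinset (fun j => if j ∈ I then ({w j} : Finset Q) else univ) := by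
    ext x
    rw [mem_filter, Fintype.mem_piFinset]
    unfold Agree
    constructor
    · rintro ⟨-, h⟩ j
      by_cases hj : j ∈ I
      · rw [if_pos hj, mem_singleton]
        exact h j hj
      · rw [if_neg hj]
        exact mem_univ _
    · intro h
      refine ⟨mem_univ _, fun j hj => ?_⟩
      have := h j
      rwa [if_pos hj, mem_singleton] at this
  rw [h1, Fintype.card_piFinset]
  have h2 : Fintype.card Q ^ I.card = ∏ j : Fin B, if j ∈ I then Fintype.card Q else 1 := by
    rw [Finset.prod_ite_mem, univ_inter, Finset.prod_const]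
  rw [h2, ← Finset.prod_mul_distrib]
  have h3 : ∀ j : Fin B, (if j ∈ I then ({w j} : Finset Q) else univ).card *
      (if j ∈ I then Fintype.card Q else 1) = Fintype.card Q := by
    intro j
    split_ifs
    · rw [card_singleton, one_mul]
    · rw [card_univ, mul_one]
  simp only [h3, Finset.prod_const, card_univ, Fintype.card_fin]

theorem dec_aux [Nonempty Q] (D : ℝ) (im : ℕ) (hD : 1 < D) (hDQ : D ≤ Fintype.card Q) :
    ∀ (n : ℕ) (u : (Fin B → Q) → ℝ), (∀ x, 0 ≤ u x) → (∀ x, u x ≤ 1) →
    (univ.filter (fun x => u x ≠ 0)).card = n →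
    ∃ (N : ℕ) (I : Fin N → Finset (Fin B)) (w : Fin N → Fin B → Q)
      (V : Fin N → (Fin B → Q) → ℝ) (V0 : (Fin B → Q) → ℝ),
      N ≤ n ∧
      (∀ i, (I i).card ≤ im ∧ Dense D (I i) (V i) ∧ (∀ x, V i x ≠ 0 → Agree (I i) x (w i)) ∧
        ∀ x, V i x ≤ u x) ∧
      (∀ x, 0 ≤ V0 x) ∧ (∀ x, V0 x ≤ u x) ∧ (∀ x, u x = V0 x + ∑ i, V i x) ∧
      (∑ x, V0 x) * (Fintype.card Q : ℝ) ^ (im + 1) ≤
        D ^ (im + 1) * (Fintype.card Q : ℝ) ^ B := by
  classical
  intro n
  induction n using Nat.strong_induction_on with
  | _ n ih =>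
  intro u hu0 hu1 hn
  have hD0 : 0 < D := by linarith
  have hq0 : (0 : ℝ) < Fintype.card Q := lt_of_lt_of_le hD0 hDQ
  have hrhs : 0 ≤ D ^ (im + 1) * (Fintype.card Q : ℝ) ^ B := by positivity
  by_cases hsum : ∑ x, u x = 0
  · have hz : ∀ x, u x = 0 := fun x =>
      (Finset.sum_eq_zero_iff_of_nonneg (fun x _ => hu0 x)).1 hsum x (mem_univ x)
    refine ⟨0, fun i => i.elim0, fun i => i.elim0, fun i => i.elim0, u, Nat.zero_le _,
      fun i => i.elim0, hu0, fun x => le_refl _, fun x => by simp, ?_⟩
    rw [hsum, zero_mul]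
    exact hrhs
  have hpos : 0 < ∑ x, u x :=
    lt_of_le_of_ne (Finset.sum_nonneg fun x _ => hu0 x) (Ne.symm hsum)
  obtain ⟨w0⟩ : Nonempty (Fin B → Q) := inferInstance
  set P : Finset (Finset (Fin B) × (Fin B → Q)) := univ.filter
    (fun q => ∑ x, u x ≤ D ^ q.1.card * ∑ x with Agree q.1 x q.2, u x) with hP
  have hPne : P.Nonempty := by
    refine ⟨(∅, w0), ?_⟩
    rw [hP, mem_filter]
    refine ⟨mem_univ _, ?_⟩
    have : (univ.filter (fun x : Fin B → Q => Agree ∅ x w0)) = univ := by
      ext x
      simp [Agree]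
    simp only [card_empty, pow_zero, one_mul, this, le_refl]
  obtain ⟨⟨I, w⟩, hIP, hmax⟩ := Finset.exists_max_image P (fun q => q.1.card) hPne
  rw [hP, mem_filter] at hIP
  have hI : ∑ x, u x ≤ D ^ I.card * ∑ x with Agree I x w, u x := hIP.2
  by_cases hcard : im < I.card
  · -- stop
    refine ⟨0, fun i => i.elim0, fun i => i.elim0, fun i => i.elim0, u, Nat.zero_le _,
      fun i => i.elim0, hu0, fun x => le_refl _, fun x => by simp, ?_⟩
    have h1 : ∑ x with Agree I x w, u x ≤ (univ.filter (fun x : Fin B → Q => Agree I x w)).card := by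
      calc ∑ x with Agree I x w, u x ≤ ∑ x with Agree I x w, (1 : ℝ) :=
            Finset.sum_le_sum fun x _ => hu1 x
        _ = _ := by rw [Finset.sum_const, nsmul_eq_mul, mul_one]
    have h2 : ((univ.filter (fun x : Fin B → Q => Agree I x w)).card : ℝ) *
        (Fintype.card Q : ℝ) ^ I.card = (Fintype.card Q : ℝ) ^ B := by
      exact_mod_cast card_agree I w
    have h3 : (∑ x, u x) * (Fintype.card Q : ℝ) ^ I.card ≤
        D ^ I.card * (Fintype.card Q : ℝ) ^ B := by
      calc (∑ x, u x) * (Fintype.card Q : ℝ) ^ I.card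
          ≤ (D ^ I.card * ∑ x with Agree I x w, u x) * (Fintype.card Q : ℝ) ^ I.card :=
            mul_le_mul_of_nonneg_right hI (by positivity)
        _ ≤ (D ^ I.card * (univ.filter (fun x : Fin B → Q => Agree I x w)).card) *
              (Fintype.card Q : ℝ) ^ I.card := by
            refine mul_le_mul_of_nonneg_right ?_ (by positivity)
            exact mul_le_mul_of_nonneg_left h1 (by positivity)
        _ = _ := by rw [mul_assoc, h2]
    obtain ⟨e, he⟩ := Nat.exists_eq_add_of_lt hcard
    have he' : I.card = (im + 1) + e := by omega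
    rw [he', pow_add _ (im + 1) e, pow_add D (im + 1) e] at h3
    have h4 : (0 : ℝ) < (Fintype.card Q : ℝ) ^ e := by positivity
    refine le_of_mul_le_mul_right ?_ h4
    calc (∑ x, u x) * (Fintype.card Q : ℝ) ^ (im + 1) * (Fintype.card Q : ℝ) ^ e
        = (∑ x, u x) * ((Fintype.card Q : ℝ) ^ (im + 1) * (Fintype.card Q : ℝ) ^ e) := by ring
      _ ≤ D ^ (im + 1) * D ^ e * (Fintype.card Q : ℝ) ^ B := h3
      _ = D ^ (im + 1) * (Fintype.card Q : ℝ) ^ B * D ^ e := by ring
      _ ≤ D ^ (im + 1) * (Fintype.card Q : ℝ) ^ B * (Fintype.card Q : ℝ) ^ e := by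
          refine mul_le_mul_of_nonneg_left ?_ hrhs
          exact pow_le_pow_left₀ hD0.le hDQ e
  · -- remove a dense piece
    rw [not_lt] at hcard
    set V1 : (Fin B → Q) → ℝ := fun x => if Agree I x w then u x else 0 with hV1
    have hV1sum : ∑ x, V1 x = ∑ x with Agree I x w, u x := by
      rw [Finset.sum_filter]
    have hV10 : ∀ x, 0 ≤ V1 x := by
      intro x
      simp only [hV1]
      split_ifs
      · exact hu0 x
      · exact le_refl _
    have hV1u : ∀ x, V1 x ≤ u x := by
      intro x
      simp only [hV1]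
      split_ifs
      · exact le_refl _
      · exact hu0 x
    have hV1pos : 0 < ∑ x, V1 x := by
      rw [hV1sum]
      by_contra hneg
      rw [not_lt] at hneg
      have : D ^ I.card * ∑ x with Agree I x w, u x ≤ 0 :=
        mul_nonpos_of_nonneg_of_nonpos (by positivity) hneg
      linarith
    have hdense : Dense D I V1 := by
      refine ⟨hV10, ?_⟩
      intro L hL y
      by_contra hcon
      rw [not_le] at hcon
      set w' : Fin B → Q := fun j => if j ∈ I then w j else y j with hw'
      have hag : ∀ x, Agree (I ∪ L) x w' ↔ Agree L x y ∧ Agree I x w := by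
        intro x
        unfold Agree
        constructor
        · intro h
          refine ⟨fun j hj => ?_, fun j hj => ?_⟩
          · have h1 := h j (mem_union_right _ hj)
            have h2 : j ∉ I := fun h' => (Finset.disjoint_left.1 hL hj) h'
            simp only [hw', if_neg h2] at h1
            exact h1
          · have h1 := h j (mem_union_left _ hj)
            simp only [hw', if_pos hj] at h1
            exact h1
        · rintro ⟨h1, h2⟩ j hj
          simp only [hw']
          split_ifs with hjI
          · exact h2 j hjI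
          · rcases mem_union.1 hj with h | h
            · exact absurd h hjI
            · exact h1 j h
      have hsums : ∑ x with Agree (I ∪ L) x w', u x = ∑ x with Agree L x y, V1 x := by
        rw [Finset.sum_filter, Finset.sum_filter]
        refine Finset.sum_congr rfl fun x _ => ?_
        simp only [hag, hV1]
        by_cases h1 : Agree L x y <;> by_cases h2 : Agree I x w <;> simp [h1, h2]
      have hcardU : (I ∪ L).card = I.card + L.card :=
        Finset.card_union_of_disjoint hL.symm
      have hmem : ((I ∪ L, w') : Finset (Fin B) × (Fin B → Q)) ∈ P := by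
        rw [hP, mem_filter]
        refine ⟨mem_univ _, ?_⟩
        simp only [hsums, hcardU]
        calc ∑ x, u x ≤ D ^ I.card * ∑ x, V1 x := by rw [hV1sum]; exact hI
          _ ≤ D ^ I.card * ((∑ x with Agree L x y, V1 x) * D ^ L.card) :=
              mul_le_mul_of_nonneg_left hcon.le (by positivity)
          _ = D ^ (I.card + L.card) * ∑ x with Agree L x y, V1 x := by rw [pow_add]; ring
      have hle := hmax _ hmem
      simp only [hcardU] at hle
      have hL0 : L = ∅ := by
        rw [← Finset.card_eq_zero]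
        omega
      rw [hL0] at hcon
      have : (univ.filter (fun x : Fin B → Q => Agree ∅ x y)) = univ := by
        ext x
        simp [Agree]
      rw [this, card_empty, pow_zero, mul_one] at hcon
      exact lt_irrefl _ hcon
    set u' : (Fin B → Q) → ℝ := fun x => u x - V1 x with hu'
    have hu'0 : ∀ x, 0 ≤ u' x := fun x => sub_nonneg.2 (hV1u x)
    have hu'u : ∀ x, u' x ≤ u x := fun x => sub_le_self _ (hV10 x)
    have hsupp : (univ.filter (fun x => u' x ≠ 0)).card < n := by
      rw [← hn]
      refine Finset.card_lt_card ?_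
      rw [Finset.ssubset_iff_of_subset]
      · obtain ⟨x, -, hx⟩ := Finset.exists_ne_zero_of_sum_ne_zero hV1pos.ne'
        have hag : Agree I x w := by
          by_contra h
          exact hx (by simp only [hV1, if_neg h])
        have hVx : V1 x = u x := by simp only [hV1, if_pos hag]
        refine ⟨x, ?_, ?_⟩
        · rw [mem_filter]
          exact ⟨mem_univ _, by rw [← hVx]; exact hx⟩
        · rw [mem_filter]
          rintro ⟨-, h⟩
          exact h (by simp only [hu', hVx, sub_self])
      · intro x hx
        rw [mem_filter] at hx ⊢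
        refine ⟨mem_univ _, fun h => hx.2 ?_⟩
        have h1 := hu'u x
        rw [h] at h1
        exact le_antisymm h1 (hu'0 x)
    obtain ⟨N, I', w'', V', V0, hN, hp, h0, h1, h2, h3⟩ :=
      ih _ hsupp u' hu'0 (fun x => (hu'u x).trans (hu1 x)) rfl
    refine ⟨N + 1, Fin.cons I I', Fin.cons w w'', Fin.cons V1 V', V0, by omega, ?_, h0,
      fun x => (h1 x).trans (hu'u x), ?_, h3⟩
    · intro i
      refine Fin.cases ?_ ?_ i
      · simp only [Fin.cons_zero]
        refine ⟨hcard, hdense, ?_, hV1u⟩
        intro x hx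
        by_contra h
        exact hx (by simp only [hV1, if_neg h])
      · intro i
        simp only [Fin.cons_succ]
        exact ⟨(hp i).1, (hp i).2.1, (hp i).2.2.1, fun x => ((hp i).2.2.2 x).trans (hu'u x)⟩
    · intro x
      rw [Fin.sum_univ_succ]
      simp only [Fin.cons_zero, Fin.cons_succ]
      have h4 := h2 x
      simp only [hu'] at h4
      linarith

theorem dec : S_DEC := by
  intro B Q _ _ _ D im u hD hDQ hu0 hu1
  obtain ⟨N, I, w, V, V0, hN, h⟩ := dec_aux D im hD hDQ _ u hu0 hu1 rfl
  refine ⟨N, I, w, V, V0, hN.trans ?_, h⟩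
  refine (Finset.card_le_univ _).trans ?_
  rw [Fintype.card_fun, Fintype.card_fin]

end Pool.Agent.H2.LP
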