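import Pool.Agent.H2.LP.DEC

/-!
# Modules RHS and LOC
-/

namespace Pool.Agent.H2.LP

open Finset Pool.Agent.H1.LP

theorem card_pinned {p R : ℕ} [NeZero p] (I : Finset (Fin R)) (h : Fin R → ZMod p) :
    (univ.filter (fun be : Fin R → ZMod p => ∀ i ∈ I, be i = h i)).card * p ^ I.card = p ^ R := by
  have h1 := card_agree I h
  rw [ZMod.card] at h1
  exact h1

theorem rhs_aux (E B p R : ℕ) [Fact p.Prime] (hR : R = 4 * E * B) (A : Fin R → Fin B → ZMod p)
    (U : Finset (Fin R)) (_hE : 1 ≤ E) (hB : 1 ≤ B) (hp : 2 ^ (4 * E) < p) (hU : U.card ≤ B) :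
    ∃ be : Fin R → ZMod p, (∀ i ∈ U, be i = 0) ∧
      ∀ z : Fin B → ZMod p, (4 * E - 3) * B ≤ (univ.filter (fun i => ip (A i) z ≠ be i)).card := by
  classical
  have hp0 : 0 < p := lt_of_le_of_lt (Nat.zero_le _) hp
  set F : Finset (Fin R → ZMod p) := univ.filter (fun be => ∀ i ∈ U, be i = 0) with hF
  have hFc : F.card * p ^ U.card = p ^ R := card_pinned U (fun _ => (0 : ZMod p))
  set Ws : Finset (Finset (Fin R)) := univ.filter (fun W => W.card = 2 * B ∧ Disjoint W U) with hWs
  set G : (Fin B → ZMod p) × Finset (Fin R) → Finset (Fin R → ZMod p) := fun q =>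
    univ.filter (fun be => (∀ i ∈ U, be i = 0) ∧ ∀ i ∈ q.2, be i = ip (A i) q.1) with hG
  have hGc : ∀ q ∈ (univ : Finset (Fin B → ZMod p)) ×ˢ Ws,
      (G q).card * p ^ (U.card + 2 * B) = p ^ R := by
    intro q hq
    rw [mem_product, hWs, mem_filter] at hq
    have h1 := card_pinned (U ∪ q.2) (fun i => if i ∈ U then (0 : ZMod p) else ip (A i) q.1)
    rw [Finset.card_union_of_disjoint hq.2.2.2.symm, hq.2.2.1] at h1
    rw [← h1]
    congr 2
    ext be
    simp only [hG, mem_filter, mem_univ, true_and]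
    constructor
    · rintro ⟨h2, h3⟩ i hi
      split_ifs with hiU
      · exact h2 i hiU
      · rcases mem_union.1 hi with h | h
        · exact absurd h hiU
        · exact h3 i h
    · intro h
      refine ⟨fun i hi => ?_, fun i hi => ?_⟩
      · have := h i (mem_union_left _ hi)
        rwa [if_pos hi] at this
      · have := h i (mem_union_right _ hi)
        have hiU : i ∉ U := Finset.disjoint_left.1 hq.2.2.2 hi
        rwa [if_neg hiU] at this
  set bad := ((univ : Finset (Fin B → ZMod p)) ×ˢ Ws).biUnion G with hbad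
  have hlt : bad.card < F.card := by
    have h1 : bad.card * p ^ (U.card + 2 * B) ≤
        ((univ : Finset (Fin B → ZMod p)) ×ˢ Ws).card * p ^ R := by
      calc bad.card * p ^ (U.card + 2 * B)
          ≤ (∑ q ∈ (univ : Finset (Fin B → ZMod p)) ×ˢ Ws, (G q).card) *
              p ^ (U.card + 2 * B) := Nat.mul_le_mul_right _ Finset.card_biUnion_le
        _ = ∑ q ∈ (univ : Finset (Fin B → ZMod p)) ×ˢ Ws, p ^ R := by
            rw [Finset.sum_mul]
            exact Finset.sum_congr rfl hGc
        _ = _ := by rw [Finset.sum_const, smul_eq_mul]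
    have h2 : ((univ : Finset (Fin B → ZMod p)) ×ˢ Ws).card ≤ p ^ B * 2 ^ R := by
      rw [card_product, card_univ, Fintype.card_fun, ZMod.card, Fintype.card_fin]
      refine Nat.mul_le_mul_left _ ?_
      refine (Finset.card_le_univ _).trans ?_
      rw [Fintype.card_finset, Fintype.card_fin]
    have h3 : 2 ^ R < p ^ B := by
      rw [hR, pow_mul]
      exact Nat.pow_lt_pow_left hp (by omega)
    have h4 : ((univ : Finset (Fin B → ZMod p)) ×ˢ Ws).card * p ^ R < p ^ (2 * B) * p ^ R := by
      refine Nat.mul_lt_mul_of_pos_right ?_ (Nat.pow_pos hp0)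
      calc _ ≤ p ^ B * 2 ^ R := h2
        _ < p ^ B * p ^ B := Nat.mul_lt_mul_of_pos_left h3 (Nat.pow_pos hp0)
        _ = p ^ (2 * B) := by rw [← pow_add, two_mul]
    have h5 : bad.card * p ^ (U.card + 2 * B) < F.card * p ^ (U.card + 2 * B) := by
      calc _ ≤ _ := h1
        _ < _ := h4
        _ = F.card * p ^ (U.card + 2 * B) := by rw [← hFc, pow_add]; ring
    exact lt_of_mul_lt_mul_right h5 (Nat.zero_le _)
  obtain ⟨be, hbe, hnb⟩ := Finset.exists_mem_notMem_of_card_lt_card hlt
  rw [hF, mem_filter] at hbe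
  refine ⟨be, hbe.2, fun z => ?_⟩
  set Z := univ.filter (fun i : Fin R => i ∉ U ∧ be i = ip (A i) z) with hZ
  have hZc : Z.card < 2 * B := by
    by_contra hge
    rw [not_lt] at hge
    obtain ⟨W, hWZ, hWc⟩ := Finset.exists_subset_card_eq hge
    refine hnb ?_
    rw [hbad, mem_biUnion]
    refine ⟨(z, W), ?_, ?_⟩
    · rw [mem_product, hWs, mem_filter]
      refine ⟨mem_univ _, mem_univ _, hWc, ?_⟩
      rw [Finset.disjoint_left]
      intro i hi
      have := hWZ hi
      rw [hZ, mem_filter] at this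
      exact this.2.1
    · simp only [hG, mem_filter, mem_univ, true_and]
      refine ⟨hbe.2, fun i hi => ?_⟩
      have := hWZ hi
      rw [hZ, mem_filter] at this
      exact this.2.2
  have hcov : (univ : Finset (Fin R)) ⊆ univ.filter (fun i => ip (A i) z ≠ be i) ∪ (U ∪ Z) := by
    intro i _
    by_cases h1 : ip (A i) z = be i
    · refine mem_union_right _ ?_
      by_cases h2 : i ∈ U
      · exact mem_union_left _ h2
      · refine mem_union_right _ ?_
        rw [hZ, mem_filter]
        exact ⟨mem_univ _, h2, h1.symm⟩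
    · refine mem_union_left _ ?_
      rw [mem_filter]
      exact ⟨mem_univ _, h1⟩
  have h6 := Finset.card_le_card hcov
  rw [card_univ, Fintype.card_fin] at h6
  have h7 := Finset.card_union_le (univ.filter (fun i => ip (A i) z ≠ be i)) (U ∪ Z)
  have h8 := Finset.card_union_le U Z
  have h9 : (4 * E - 3) * B = R - 3 * B := by rw [hR, Nat.sub_mul]
  rw [h9]
  omega

theorem rhs : S_RHS := by
  intro E B p _ A U hE hB hp hU
  exact rhs_aux E B p _ rfl A U hE hB hp hU

theorem supp_add_le {p B : ℕ} (l l' : Fin B → ZMod p) :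
    (supp (l + l')).card ≤ (supp l).card + (supp l').card := by
  refine (Finset.card_le_card ?_).trans (Finset.card_union_le _ _)
  intro j hj
  unfold supp at hj ⊢
  rw [mem_filter] at hj
  rw [mem_union, mem_filter, mem_filter]
  by_contra h
  rw [not_or] at h
  have h1 : l j = 0 := by
    by_contra h'
    exact h.1 ⟨mem_univ _, h'⟩
  have h2 : l' j = 0 := by
    by_contra h'
    exact h.2 ⟨mem_univ _, h'⟩
  exact hj.2 (by rw [Pi.add_apply, h1, h2, add_zero])

theorem supp_neg {p B : ℕ} (l : Fin B → ZMod p) : supp (-l) = supp l := by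
  unfold supp
  simp

theorem comb_add {p R B : ℕ} (A : Fin R → Fin B → ZMod p) (c c' : Fin R → ZMod p) :
    comb A (c + c') = comb A c + comb A c' := by
  funext j
  unfold comb
  simp only [Pi.add_apply, add_mul, Finset.sum_add_distrib]

theorem comb_neg {p R B : ℕ} (A : Fin R → Fin B → ZMod p) (c : Fin R → ZMod p) :
    comb A (-c) = - comb A c := by
  funext j
  unfold comb
  simp only [Pi.neg_apply, neg_mul, Finset.sum_neg_distrib]

theorem comb_zero {p R B : ℕ} (A : Fin R → Fin B → ZMod p) : comb A 0 = 0 := by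
  funext j
  unfold comb
  simp

theorem loc : S_LOC := by
  classical
  intro p B R t d _ Y ht
  set W : (Fin B → ZMod p) → (Fin R → ZMod p) → Prop := fun l c =>
    (supp c).card ≤ t ∧ comb Y.A c = l with hW
  set ga : (Fin B → ZMod p) → ZMod p := fun l =>
    if h : ∃ c, W l c then ∑ i, h.choose i * Y.be i else 0 with hga
  have hwd : ∀ l c, W l c → ga l = ∑ i, c i * Y.be i := by
    intro l c hc
    have hex : ∃ c, W l c := ⟨c, hc⟩
    have h1 : W l hex.choose := hex.choose_spec
    have h2 : ga l = ∑ i, hex.choose i * Y.be i := by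
      simp only [hga, dif_pos hex]
    rw [h2]
    set c0 := hex.choose with hc0
    have h3 := Y.cons (c0 + -c) ((supp_add_le _ _).trans (by
      rw [supp_neg]
      have := h1.1
      have := hc.1
      omega)) (by rw [comb_add, comb_neg, h1.2, hc.2, add_neg_cancel])
    simp only [Pi.add_apply, Pi.neg_apply, add_mul, neg_mul, Finset.sum_add_distrib,
      Finset.sum_neg_distrib] at h3
    exact eq_of_sub_eq_zero (by rw [sub_eq_add_neg]; exact h3)
  have hadd : ∀ l c l' c', W l c → W l' c' → (supp (l + l')).card ≤ d → W (l + l') (c + c') := by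
    intro l c l' c' hc hc' hd
    have h1 : comb Y.A (c + c') = l + l' := by rw [comb_add, hc.2, hc'.2]
    refine ⟨?_, h1⟩
    by_contra hlt
    rw [not_le] at hlt
    have h2 := Y.wide (c + c') hlt ((supp_add_le _ _).trans (by
      have := hc.1
      have := hc'.1
      omega))
    rw [h1] at h2
    omega
  refine ⟨⟨univ.filter (fun l => (supp l).card ≤ d ∧ ∃ c, W l c), ga, ?_, ?_, ?_, ?_, ?_⟩, ?_⟩
  · intro l hl
    rw [mem_filter] at hl
    exact hl.2.1
  · rw [mem_filter]
    refine ⟨mem_univ _, ?_, 0, ?_, comb_zero _⟩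
    · simp [supp]
    · simp [supp]
  · intro l hl
    rw [mem_filter] at hl ⊢
    obtain ⟨-, h1, c, h2, h3⟩ := hl
    refine ⟨mem_univ _, by rw [supp_neg]; exact h1, -c, by rw [supp_neg]; exact h2, ?_⟩
    rw [comb_neg, h3]
  · intro l hl l' hl' hd
    rw [mem_filter] at hl hl' ⊢
    obtain ⟨-, -, c, hc⟩ := hl
    obtain ⟨-, -, c', hc'⟩ := hl'
    exact ⟨mem_univ _, hd, c + c', hadd l c l' c' hc hc' hd⟩
  · intro l hl l' hl' hd
    rw [mem_filter] at hl hl'
    obtain ⟨-, -, c, hc⟩ := hl
    obtain ⟨-, -, c', hc'⟩ := hl'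
    rw [hwd _ _ (hadd l c l' c' hc hc' hd), hwd l c hc, hwd l' c' hc']
    simp only [Pi.add_apply, add_mul, Finset.sum_add_distrib]
  · intro i hi
    have h1 : W (Y.A i) (Pi.single i 1) := by
      refine ⟨?_, ?_⟩
      · refine le_trans ?_ ht
        rw [Finset.card_le_one]
        intro a ha b hb
        unfold supp at ha hb
        rw [mem_filter] at ha hb
        have h2 : a = i := by
          by_contra h
          exact ha.2 (Pi.single_eq_of_ne h _)
        have h3 : b = i := by
          by_contra h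
          exact hb.2 (Pi.single_eq_of_ne h _)
        rw [h2, h3]
      · funext j
        unfold comb
        simp [Pi.single_apply]
    refine ⟨?_, ?_⟩
    · rw [mem_filter]
      exact ⟨mem_univ _, hi, _, h1⟩
    · show ga (Y.A i) = Y.be i
      rw [hwd _ _ h1]
      simp [Pi.single_apply]

end Pool.Agent.H2.LP
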